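import Pool.Agent.N798.W.Stm
import Pool.Agent.N531.HS.MT

set_option autoImplicit false

/-! Project HW (helper798), leaf MW: the main term over a large set of indices (after N531/HS/MT). -/

namespace Pool.Agent.N136.HW

open Finset MeasureTheory Filter Topology
open Pool.Agent.N798.HS (Sq)
open Pool.Agent.N531.HS (sq_ge partA)
open Pool.Agent.N798.HW

theorem log_pow_le (K : ℕ) {c : ℝ} (hc : 0 < c) :
    ∀ᶠ n : ℕ in atTop, c * (Real.log n) ^ K ≤ n := by
  have hlt := Real.tendsto_log_atTop.comp (tendsto_natCast_atTop_atTop (R := ℝ))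
  have h1 := (Real.isLittleO_pow_log_id_atTop (n := K)).comp_tendsto
    (tendsto_natCast_atTop_atTop (R := ℝ))
  have h2 := h1.bound (show 0 < 1 / c by positivity)
  filter_upwards [h2, hlt.eventually_ge_atTop 1] with n hn hn1
  have hn1' : (1 : ℝ) ≤ Real.log n := hn1
  have h3 : ‖Real.log n ^ K‖ ≤ 1 / c * ‖(n : ℝ)‖ := hn
  rw [Real.norm_of_nonneg (by positivity), Real.norm_of_nonneg (Nat.cast_nonneg n)] at h3
  calc c * (Real.log n) ^ K ≤ c * (1 / c * n) := mul_le_mul_of_nonneg_left h3 hc.le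
    _ = n := by field_simp

theorem partB' (K : ℕ) {u : ℕ → ℕ} (h : Sq u) {α : ℝ} (hα : 0 < α) {ε : ℝ} (hε : 0 < ε) :
    ∀ᶠ n : ℕ in atTop, ∀ l : ℕ, (n : ℝ) / Real.log n ^ K ≤ l → l ≤ n →
      |Real.log n / Real.log (α * u l) - 1| < ε := by
  obtain ⟨C, n0, hC⟩ := h.2.2
  have hlt := Real.tendsto_log_atTop.comp (tendsto_natCast_atTop_atTop (R := ℝ))
  obtain ⟨δ, hδ⟩ : ∃ δ : ℝ, δ = min (ε / 4) (1 / 2) := ⟨_, rfl⟩
  have hδ0 : 0 < δ := by rw [hδ]; positivity
  have hδ1 : δ ≤ ε / 4 := by rw [hδ]; exact min_le_left _ _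
  have hδ2 : δ ≤ 1 / 2 := by rw [hδ]; exact min_le_right _ _
  have e1 : ∀ᶠ n : ℕ in atTop, Real.log (Real.log n) ≤ δ / (2 * ((C : ℝ) + K + 1)) * Real.log n := by
    have h1 := Real.isLittleO_log_id_atTop.comp_tendsto hlt
    have h2 := h1.bound (show 0 < δ / (2 * ((C : ℝ) + K + 1)) by positivity)
    filter_upwards [h2, hlt.eventually_ge_atTop 1] with n hn hn1
    have hn1' : (1 : ℝ) ≤ Real.log n := hn1
    have h3 : ‖Real.log (Real.log n)‖ ≤ δ / (2 * ((C : ℝ) + K + 1)) * ‖Real.log n‖ := hn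
    rw [Real.norm_of_nonneg (by linarith : (0 : ℝ) ≤ Real.log n)] at h3
    exact (le_abs_self _).trans h3
  have e2 : ∀ᶠ n : ℕ in atTop, ((n0 : ℝ) + 1) * Real.log n ^ K ≤ n :=
    log_pow_le K (by positivity)
  filter_upwards [e1, e2, hlt.eventually_ge_atTop 1, hlt.eventually_ge_atTop (2 * |Real.log α| / δ)]
    with n h1 h2 h3 h4 l hl1 hl2
  have h3' : (1 : ℝ) ≤ Real.log n := h3
  have h4' : 2 * |Real.log α| / δ ≤ Real.log n := h4
  have hL0 : (0 : ℝ) < Real.log n := by linarith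
  have hLK : (0 : ℝ) < Real.log n ^ K := by positivity
  have hn0 : (0 : ℝ) < n := by
    have : (0 : ℝ) < ((n0 : ℝ) + 1) * Real.log n ^ K := by positivity
    linarith
  have hl3 : (n0 : ℝ) + 1 ≤ l := by
    refine le_trans ?_ hl1
    rw [le_div_iff₀ hLK]
    exact h2
  have hl4 : n0 ≤ l := by
    have : (n0 : ℝ) ≤ l := by linarith
    exact_mod_cast this
  have hl5 : (1 : ℝ) ≤ l := by
    have : (0 : ℝ) ≤ n0 := Nat.cast_nonneg _
    linarith
  have hl6 : 1 ≤ l := by exact_mod_cast hl5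
  have hlr : (0 : ℝ) < l := by linarith
  have hul := sq_ge h l hl6
  have hur : (0 : ℝ) < u l := by exact_mod_cast (by omega : 0 < u l)
  have hLL : 0 ≤ Real.log (Real.log n) := Real.log_nonneg h3'
  -- lower bound
  have b1 : Real.log n - K * Real.log (Real.log n) ≤ Real.log (u l) := by
    rw [← Real.log_pow, ← Real.log_div hn0.ne' hLK.ne']
    apply Real.log_le_log (by positivity)
    refine hl1.trans ?_
    exact_mod_cast hul
  -- upper bound
  have b2 : Real.log (u l) ≤ Real.log n + C * Real.log (Real.log n) := by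
    rw [← Real.log_pow, ← Real.log_mul hn0.ne' (by positivity)]
    apply Real.log_le_log hur
    refine (hC l hl4).trans ?_
    have h5 : Real.log l ≤ Real.log n := Real.log_le_log hlr (by exact_mod_cast hl2)
    have h6 : 0 ≤ Real.log l := Real.log_nonneg hl5
    exact mul_le_mul (by exact_mod_cast hl2) (pow_le_pow_left₀ h6 h5 C) (by positivity) hn0.le
  have hlog : Real.log (α * u l) = Real.log α + Real.log (u l) := Real.log_mul hα.ne' hur.ne'
  have b3 : |Real.log α| ≤ δ / 2 * Real.log n := by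
    rw [div_le_iff₀ hδ0] at h4'
    linarith
  have b4 : ((C : ℝ) + K + 1) * Real.log (Real.log n) ≤ δ / 2 * Real.log n := by
    have hC0 : (0 : ℝ) < (C : ℝ) + K + 1 := by positivity
    calc ((C : ℝ) + K + 1) * Real.log (Real.log n)
        ≤ ((C : ℝ) + K + 1) * (δ / (2 * ((C : ℝ) + K + 1)) * Real.log n) :=
          mul_le_mul_of_nonneg_left h1 hC0.le
      _ = δ / 2 * Real.log n := by field_simp
  have b5 : |Real.log n - Real.log (α * u l)| ≤ δ * Real.log n := by
    rw [hlog, abs_le]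
    have c1 := neg_abs_le (Real.log α)
    have c2 := le_abs_self (Real.log α)
    have hCL : 0 ≤ (C : ℝ) * Real.log (Real.log n) := by positivity
    have hKL : 0 ≤ (K : ℝ) * Real.log (Real.log n) := by positivity
    have b4' : (C : ℝ) * Real.log (Real.log n) + K * Real.log (Real.log n) +
        Real.log (Real.log n) ≤ δ / 2 * Real.log n := by
      calc _ = ((C : ℝ) + K + 1) * Real.log (Real.log n) := by ring
        _ ≤ _ := b4
    constructor <;> linarith
  have b6 : Real.log n / 2 ≤ Real.log (α * u l) := by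
    have c1 := (abs_le.mp b5).2
    have c2 : δ * Real.log n ≤ 1 / 2 * Real.log n := mul_le_mul_of_nonneg_right hδ2 hL0.le
    linarith
  have hpos : 0 < Real.log (α * u l) := by linarith
  have b7 : Real.log n / Real.log (α * u l) - 1
      = (Real.log n - Real.log (α * u l)) / Real.log (α * u l) := by
    field_simp
  rw [b7, abs_div, abs_of_pos hpos, div_lt_iff₀ hpos]
  have b8 : δ * Real.log n ≤ ε / 4 * Real.log n := mul_le_mul_of_nonneg_right hδ1 hL0.le
  have b9 : ε * (Real.log n / 2) ≤ ε * Real.log (α * u l) := mul_le_mul_of_nonneg_left b6 hε.le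
  have b10 : 0 < ε * Real.log n := by positivity
  linarith

/-- the number of the elements of a set of positive integers up to `x` -/
theorem card_le_real (W : Finset ℕ) (hW : ∀ j ∈ W, 1 ≤ j) {x : ℝ} (hx : ∀ j ∈ W, (j : ℝ) ≤ x)
    (hx0 : 0 ≤ x) : (W.card : ℝ) ≤ x := by
  have h : W ⊆ Icc 1 ⌊x⌋₊ := fun j hj => mem_Icc.2 ⟨hW j hj, Nat.le_floor (hx j hj)⟩
  have h2 := card_le_card h
  rw [Nat.card_Icc, Nat.add_sub_cancel] at h2
  have h3 : (W.card : ℝ) ≤ ⌊x⌋₊ := by exact_mod_cast h2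
  exact h3.trans (Nat.floor_le hx0)

theorem mw : S_MW := by
  classical
  intro k u hu α hα ε hε C
  -- continuity of the product
  obtain ⟨δ, hδ0, hδ⟩ : ∃ δ : ℝ, 0 < δ ∧ ∀ r : Fin k → ℝ, (∀ i, |r i - 1| < δ) →
      |∏ i, r i - 1| < ε / 8 := by
    have hc : Continuous fun r : Fin k → ℝ => ∏ i, r i :=
      continuous_finsetProd _ fun i _ => continuous_apply i
    have h1 := Metric.continuous_iff.mp hc (fun _ => 1) (ε / 8) (by positivity)
    obtain ⟨δ, hδ, h⟩ := h1
    refine ⟨δ, hδ, fun r hr => ?_⟩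
    have h2 := h r ((dist_pi_lt_iff hδ).mpr fun i => by
      rw [Real.dist_eq]
      exact hr i)
    rw [Real.dist_eq, prod_const_one] at h2
    exact h2
  have hA : ∀ᶠ n : ℕ in atTop, ∀ i, ∀ l : ℕ, Nat.sqrt n < l →
      Real.log n / 3 ≤ Real.log (α i * u i l) :=
    eventually_all.mpr fun i => partA (hu i) (hα i)
  have hB : ∀ᶠ n : ℕ in atTop, ∀ i, ∀ l : ℕ, (n : ℝ) / Real.log n ^ (C + 1) ≤ l → l ≤ n →
      |Real.log n / Real.log (α i * u i l) - 1| < δ :=
    eventually_all.mpr fun i => partB' (C + 1) (hu i) (hα i) hδ0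
  have hlt := Real.tendsto_log_atTop.comp (tendsto_natCast_atTop_atTop (R := ℝ))
  have h3k : (0 : ℝ) < 3 ^ k := by positivity
  have h3k1 : (1 : ℝ) ≤ 3 ^ k := one_le_pow₀ (by norm_num)
  have hall : ∀ᶠ n : ℕ in atTop, ∀ W : Finset ℕ, W ⊆ Icc 1 n →
      (n : ℝ) / (Real.log n) ^ C ≤ #W →
      |(∑ j ∈ W.filter (fun j => Nat.sqrt n < j), ∏ i, 1 / Real.log (α i * u i j)) /
        (#W / (Real.log n) ^ k) - 1| ≤ ε := by
    filter_upwards [hA, hB, hlt.eventually_ge_atTop 1, hlt.eventually_ge_atTop (8 * 3 ^ k / ε),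
      eventually_ge_atTop 1, log_pow_le (2 * (C + 1)) one_pos] with n hA hB hL1 hL2 hn1 hL3 W hWn hW
    have hL1' : (1 : ℝ) ≤ Real.log n := hL1
    have hL2' : 8 * 3 ^ k / ε ≤ Real.log n := hL2
    have hL0 : (0 : ℝ) < Real.log n := by linarith
    have hn0 : (0 : ℝ) < n := by exact_mod_cast hn1
    obtain ⟨w, hw⟩ : ∃ w : ℝ, w = (#W : ℝ) := ⟨_, rfl⟩
    rw [← hw] at hW ⊢
    have hw0 : 0 < w := lt_of_lt_of_le (by positivity) hW
    obtain ⟨x, hx⟩ : ∃ x : ℝ, x = (n : ℝ) / Real.log n ^ (C + 1) := ⟨_, rfl⟩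
    have hx0 : 0 ≤ x := by rw [hx]; positivity
    have hxw : x * Real.log n ≤ w := by
      refine le_trans (le_of_eq ?_) hW
      rw [hx, pow_succ]
      field_simp
    have hxε : 3 ^ k * x ≤ ε / 8 * w := by
      have h1 : 8 * 3 ^ k ≤ Real.log n * ε := (div_le_iff₀ hε).mp hL2'
      have h2 : x * (8 * 3 ^ k) ≤ x * (Real.log n * ε) := mul_le_mul_of_nonneg_left h1 hx0
      have h3 : x * Real.log n * ε ≤ w * ε := mul_le_mul_of_nonneg_right hxw hε.le
      have h4 : x * (Real.log n * ε) = x * Real.log n * ε := by ring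
      linarith
    have hsx : (Nat.sqrt n : ℝ) ≤ x := by
      rw [hx, le_div_iff₀ (by positivity)]
      have h1 : ((Nat.sqrt n : ℝ)) * (Nat.sqrt n : ℝ) ≤ n := by exact_mod_cast Nat.sqrt_le n
      have h2 : (Real.log n ^ (C + 1)) * (Real.log n ^ (C + 1)) ≤ n := by
        rw [one_mul] at hL3
        rw [← pow_add, ← two_mul]
        exact hL3
      have h3 : ((Nat.sqrt n : ℝ) * Real.log n ^ (C + 1)) ^ 2 ≤ (n : ℝ) ^ 2 := by
        calc ((Nat.sqrt n : ℝ) * Real.log n ^ (C + 1)) ^ 2 =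
            ((Nat.sqrt n : ℝ) * (Nat.sqrt n : ℝ)) *
              ((Real.log n ^ (C + 1)) * (Real.log n ^ (C + 1))) := by ring
          _ ≤ (n : ℝ) * n := mul_le_mul h1 h2 (by positivity) hn0.le
          _ = (n : ℝ) ^ 2 := by ring
      exact (pow_le_pow_iff_left₀ (by positivity) hn0.le two_ne_zero).1 h3
    have hx1 : x ≤ ε / 8 * w := by
      have : 1 * x ≤ 3 ^ k * x := mul_le_mul_of_nonneg_right h3k1 hx0
      linarith
    -- the normalised product
    obtain ⟨g, hg⟩ : ∃ g : ℕ → ℝ, g = fun j => ∏ i, Real.log n / Real.log (α i * u i j) := ⟨_, rfl⟩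
    obtain ⟨W', hW'⟩ : ∃ W' : Finset ℕ, W' = W.filter (fun j => Nat.sqrt n < j) := ⟨_, rfl⟩
    rw [← hW']
    have hsum : (∑ j ∈ W', ∏ i, 1 / Real.log (α i * u i j)) * (Real.log n) ^ k =
        ∑ j ∈ W', g j := by
      rw [sum_mul]
      refine sum_congr rfl fun j _ => ?_
      rw [hg]
      have e1 : (Real.log n) ^ k = ∏ _i : Fin k, Real.log n := by
        rw [prod_const, card_univ, Fintype.card_fin]
      rw [e1, ← prod_mul_distrib]
      exact prod_congr rfl fun i _ => by rw [one_div, mul_comm, ← div_eq_mul_inv]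
    have hmem : ∀ j ∈ W', j ∈ W ∧ Nat.sqrt n < j ∧ 1 ≤ j ∧ j ≤ n := by
      intro j hj
      rw [hW', mem_filter] at hj
      have h1 := mem_Icc.1 (hWn hj.1)
      exact ⟨hj.1, hj.2, h1.1, h1.2⟩
    have hg1 : ∀ j ∈ W', |g j - 1| ≤ 3 ^ k := by
      intro j hj
      have f0 : ∀ i, 0 ≤ Real.log n / Real.log (α i * u i j) := fun i => by
        have := hA i j (hmem j hj).2.1
        exact div_nonneg hL0.le (by linarith)
      have f1 : ∀ i, Real.log n / Real.log (α i * u i j) ≤ 3 := fun i => by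
        have := hA i j (hmem j hj).2.1
        rw [div_le_iff₀ (by linarith)]
        linarith
      have g0 : 0 ≤ g j := by rw [hg]; exact prod_nonneg fun i _ => f0 i
      have g1 : g j ≤ 3 ^ k := by
        have h5 : g j ≤ ∏ _i : Fin k, (3 : ℝ) := by
          rw [hg]
          exact prod_le_prod (fun i _ => f0 i) fun i _ => f1 i
        rwa [prod_const, card_univ, Fintype.card_fin] at h5
      rw [abs_le]
      constructor <;> linarith
    have hg2 : ∀ j ∈ W', ¬ ((j : ℝ) ≤ x) → |g j - 1| ≤ ε / 8 := by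
      intro j hj h1
      rw [hg]
      refine (hδ _ fun i => hB i j ?_ (hmem j hj).2.2.2).le
      rw [← hx]
      exact (not_le.1 h1).le
    have hterm : ∀ j ∈ W', |g j - 1| ≤ ε / 8 + if (j : ℝ) ≤ x then (3 : ℝ) ^ k else 0 := by
      intro j hj
      by_cases hjE : (j : ℝ) ≤ x
      · rw [if_pos hjE]
        have := hg1 j hj
        linarith
      · rw [if_neg hjE, add_zero]
        exact hg2 j hj hjE
    have hW'W : (W'.card : ℝ) ≤ w := by
      rw [hw, hW']
      exact_mod_cast card_le_card (filter_subset _ _)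
    have hS1 : |∑ j ∈ W', g j - W'.card| ≤ ε / 8 * w + 3 ^ k * x := by
      have e1 : ∑ j ∈ W', g j - W'.card = ∑ j ∈ W', (g j - 1) := by
        rw [sum_sub_distrib, sum_const, nsmul_eq_mul, mul_one]
      rw [e1]
      refine (abs_sum_le_sum_abs _ _).trans ((sum_le_sum hterm).trans ?_)
      rw [sum_add_distrib, sum_const, nsmul_eq_mul, ← sum_filter, sum_const, nsmul_eq_mul]
      have h2 : ((W'.filter (fun j : ℕ => (j : ℝ) ≤ x)).card : ℝ) ≤ x := by
        apply card_le_real _ _ _ hx0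
        · intro j hj
          exact (hmem j (mem_filter.1 hj).1).2.2.1
        · intro j hj
          exact (mem_filter.1 hj).2
      have h3 : (W'.card : ℝ) * (ε / 8) ≤ w * (ε / 8) :=
        mul_le_mul_of_nonneg_right hW'W (by positivity)
      have h4 : ((W'.filter (fun j : ℕ => (j : ℝ) ≤ x)).card : ℝ) * 3 ^ k ≤ x * 3 ^ k :=
        mul_le_mul_of_nonneg_right h2 h3k.le
      linarith
    have hS2 : w - W'.card ≤ x := by
      have h1 : ((W.filter (fun j => ¬ Nat.sqrt n < j)).card : ℝ) ≤ x := by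
        apply card_le_real _ _ _ hx0
        · intro j hj
          exact (mem_Icc.1 (hWn (mem_filter.1 hj).1)).1
        · intro j hj
          have h2 : j ≤ Nat.sqrt n := not_lt.1 (mem_filter.1 hj).2
          have h3 : (j : ℝ) ≤ Nat.sqrt n := by exact_mod_cast h2
          linarith
      have h2 := card_filter_add_card_filter_not (s := W) (fun j => Nat.sqrt n < j)
      have h3 : (W'.card : ℝ) + ((W.filter (fun j => ¬ Nat.sqrt n < j)).card : ℝ) = w := by
        rw [hW', hw]
        exact_mod_cast h2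
      linarith
    have hfin : |∑ j ∈ W', g j - w| ≤ ε * w := by
      have e1 : ∑ j ∈ W', g j - w = (∑ j ∈ W', g j - W'.card) + (W'.card - w) := by ring
      have e2 : |(W'.card : ℝ) - w| ≤ x := by
        rw [abs_le]
        constructor <;> linarith
      have e3 : 0 ≤ ε * w := by positivity
      rw [e1]
      refine (abs_add_le _ _).trans ?_
      linarith
    have e2 : (∑ j ∈ W', ∏ i, 1 / Real.log (α i * u i j)) / (w / (Real.log n) ^ k) - 1 =
        (∑ j ∈ W', g j - w) / w := by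
      rw [← hsum]
      field_simp
    rw [e2, abs_div, abs_of_pos hw0, div_le_iff₀ hw0]
    exact hfin
  obtain ⟨N, hN⟩ := eventually_atTop.mp hall
  exact ⟨N, fun n hn => hN n hn⟩

end Pool.Agent.N136.HW
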